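import Pool.Agent.Helper6.NX.GoalsB2

/-! Project NX, packet CNT: the number of subtrees of the binary tree. -/

set_option linter.unusedVariables false

namespace Pool.Agent.Helper71.NX

open Pool.Agent.Helper6.NX

/-- the set of lists coded by a binary tree -/
def dec : BinaryTree Unit → Finset (List Bool)
  | .nil => ∅
  | .node _ l r => insert [] ((dec l).image (fun s => s ++ [false]) ∪
      (dec r).image (fun s => s ++ [true]))

/-- the subtree at the child `b` of the root -/
noncomputable def chd (T : Finset (List Bool)) (b : Bool) : Finset (List Bool) :=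
  T.preimage (fun s => s ++ [b]) (by intro x _ y _ h; exact List.append_cancel_right h)

theorem mem_chd (T : Finset (List Bool)) (b : Bool) (s : List Bool) :
    s ∈ chd T b ↔ s ++ [b] ∈ T := by
  exact Finset.mem_preimage

theorem chd_TC {T : Finset (List Bool)} (h : TC T) (b : Bool) :
    chd T b = ∅ ∨ TC (chd T b) := by
  rcases Finset.eq_empty_or_nonempty (chd T b) with h0 | ⟨s, hs⟩
  · left; exact h0
  · right
    have hst : ∀ c s, (c :: s) ∈ chd T b → s ∈ chd T b := by
      intro c s hs
      rw [mem_chd] at hs ⊢
      exact h.2 c (s ++ [b]) hs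
    refine ⟨?_, hst⟩
    induction s with
    | nil => exact hs
    | cons c s ih => exact ih (hst c s hs)

theorem split_TC {T : Finset (List Bool)} (h : TC T) :
    T = insert [] ((chd T false).image (fun s => s ++ [false]) ∪
      (chd T true).image (fun s => s ++ [true])) := by
  ext s
  simp only [Finset.mem_insert, Finset.mem_union, Finset.mem_image, mem_chd]
  constructor
  · intro hs
    rcases List.eq_nil_or_concat s with h0 | ⟨t, b, hb⟩
    · left; exact h0
    · right
      rw [List.concat_eq_append] at hb
      rw [hb] at hs ⊢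
      cases b
      · left; exact ⟨t, hs, rfl⟩
      · right; exact ⟨t, hs, rfl⟩
  · rintro (h0 | ⟨t, ht, rfl⟩ | ⟨t, ht, rfl⟩)
    · rw [h0]; exact h.1
    · exact ht
    · exact ht

theorem card_TC {T : Finset (List Bool)} (h : TC T) :
    T.card = (chd T false).card + (chd T true).card + 1 := by
  conv_lhs => rw [split_TC h]
  rw [Finset.card_insert_of_notMem, Finset.card_union_of_disjoint, Finset.card_image_of_injective,
    Finset.card_image_of_injective]
  · intro a b hab; exact List.append_cancel_right hab
  · intro a b hab; exact List.append_cancel_right hab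
  · rw [Finset.disjoint_left]
    intro s hs ht
    rw [Finset.mem_image] at hs ht
    obtain ⟨a, _, ha⟩ := hs
    obtain ⟨b, _, hb⟩ := ht
    have := ha.trans hb.symm
    have h2 := congrArg List.getLast? this
    simp at h2
  · intro hs
    simp at hs

theorem exists_dec : ∀ (x : ℕ) (T : Finset (List Bool)), T.card = x → (T = ∅ ∨ TC T) →
    ∃ t : BinaryTree Unit, t.numNodes = x ∧ dec t = T := by
  intro x
  induction x using Nat.strong_induction_on with
  | _ x ih =>
    intro T hx hT
    rcases hT with hT | hT
    · refine ⟨.nil, ?_, ?_⟩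
      · rw [hT] at hx; simp at hx; rw [← hx]; rfl
      · rw [hT]; rfl
    · have hc := card_TC hT
      obtain ⟨l, hl, hl'⟩ := ih (chd T false).card (by omega) _ rfl (chd_TC hT false)
      obtain ⟨r, hr, hr'⟩ := ih (chd T true).card (by omega) _ rfl (chd_TC hT true)
      refine ⟨.node () l r, ?_, ?_⟩
      · rw [BinaryTree.numNodes, hl, hr, ← hx, hc]
      · rw [dec, hl', hr']; exact (split_TC hT).symm

theorem thmCNT : S_CNT := by
  intro x S hS
  have h1 : S ⊆ (BinaryTree.treesOfNumNodesEq x).image dec := by
    intro T hT
    obtain ⟨h1, h2⟩ := hS T hT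
    obtain ⟨t, ht, ht'⟩ := exists_dec x T h2 (Or.inr h1)
    rw [Finset.mem_image]
    exact ⟨t, BinaryTree.mem_treesOfNumNodesEq.2 ht, ht'⟩
  have h2 : catalan x ≤ x.centralBinom := by
    rw [catalan_eq_centralBinom_div]
    exact Nat.div_le_self _ _
  calc S.card ≤ ((BinaryTree.treesOfNumNodesEq x).image dec).card := Finset.card_le_card h1
    _ ≤ (BinaryTree.treesOfNumNodesEq x).card := Finset.card_image_le
    _ = catalan x := BinaryTree.treesOfNumNodesEq_card_eq_catalan x
    _ ≤ x.centralBinom := h2
    _ ≤ 4 ^ x := Nat.centralBinom_le_four_pow x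

end Pool.Agent.Helper71.NX
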