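import Pool.Agent.Helper6.NX.GoalsB

/-! Project NX, packet COL: few fixed points. -/

set_option linter.unusedVariables false

namespace Pool.Agent.Helper71.NX

open Equiv Pool.Agent.Helper15.An Pool.Agent.Helper6.NX

theorem res_eq_iff {n : ℕ} (D : Finset (Fin n)) (g h : Perm (Fin n)) :
    res D g = res D h ↔ ∀ x ∈ D, g x = h x := by
  constructor
  · intro e x hx
    have := congrFun e x
    unfold res at this
    simpa [hx] using this
  · intro e
    funext x
    unfold res
    by_cases hx : x ∈ D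
    · simp [hx, e x hx]
    · simp [hx]

/-- expected number of coincidences at `p` -/
noncomputable def QQ {n : ℕ} (ν : Perm (Fin n) → ℝ) (p : Fin n) (D : Finset (Fin n)) : ℝ := by
  classical exact ∑ z, ccp ν (res D) z * (if z.1 p = z.2 p then 1 else 0)

theorem QQ_eq {n : ℕ} (ν : Perm (Fin n) → ℝ) (p : Fin n) (D : Finset (Fin n)) :
    QQ ν p D = ∑ f, ν f * kern ν D f (f p) p := by
  classical
  unfold QQ
  rw [Fintype.sum_prod_type]
  refine Finset.sum_congr rfl fun h _ => ?_
  unfold kern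
  rw [← mul_div_assoc, Finset.mul_sum, Finset.sum_div]
  refine Finset.sum_congr rfl fun h' _ => ?_
  unfold ccp law
  simp only []
  have e1 : ∀ g, (res D g = res D h) ↔ ∀ x ∈ D, g x = h x := fun g => res_eq_iff D g h
  have e2 : (res D h = res D h') ↔ ∀ x ∈ D, h' x = h x :=
    eq_comm.trans (res_eq_iff D h' h)
  have e3 : (h p = h' p) ↔ h' p = h p := eq_comm
  simp only [e1, e2, e3]
  by_cases c1 : ∀ x ∈ D, h' x = h x
  · by_cases c2 : h' p = h p
    · rw [if_pos c1, if_pos c2, if_pos ⟨c1, c2⟩]; ring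
    · rw [if_neg c2, if_neg (show ¬((∀ x ∈ D, h' x = h x) ∧ h' p = h p) from fun c => c2 c.2)]
      simp
  · rw [if_neg c1, if_neg (show ¬((∀ x ∈ D, h' x = h x) ∧ h' p = h p) from fun c => c1 c.1)]
    simp

theorem fixc_eq {n : ℕ} (g h π : Perm (Fin n)) :
    (fixc (g⁻¹ * h) : ℝ) = ∑ i, (if g (π i) = h (π i) then (1 : ℝ) else 0) := by
  classical
  rw [Equiv.sum_comp π (fun p => if g p = h p then (1 : ℝ) else 0)]
  unfold fixc
  rw [Finset.card_filter, Nat.cast_sum]
  refine Finset.sum_congr rfl fun p _ => ?_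
  have : ((g⁻¹ * h) p = p) ↔ g p = h p := by
    rw [Perm.mul_apply, Perm.inv_eq_iff_eq]
    exact eq_comm
  rw [Nat.cast_ite, Nat.cast_one, Nat.cast_zero]
  exact if_congr this rfl rfl

theorem thmCOL (hl5 : S_L5) (hl8 : S_L8) (havg : S_AVG) : S_COL := by
  classical
  intro n k hk ν hν
  have hc : ∀ D : Finset (Fin n), IsLaw (ccp ν (res D)) := fun D =>
    (hl8 (Perm (Fin n)) Unit Unit (Fin n → Option (Fin n)) ν (fun _ => ()) (fun _ => ())
      (res D) hν).1
  have hN : (0 : ℝ) < n.factorial := by positivity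
  have hl : ∀ D : Finset (Fin n), IsLaw (law (ccp ν (res D)) (fun z => z.1⁻¹ * z.2)) := fun D =>
    (hl5 _ _ Unit (ccp ν (res D)) (fun z => z.1⁻¹ * z.2) (fun _ => ()) (hc D)).1
  refine ⟨⟨fun σ => ?_, ?_⟩, ?_⟩
  · unfold chi
    exact mul_nonneg (by positivity) (Finset.sum_nonneg fun π _ => (hl _).1 σ)
  · unfold chi
    rw [← Finset.mul_sum, Finset.sum_comm]
    have : ∀ π : Perm (Fin n), ∑ σ, law (ccp ν (res (im π (ini n k)))) (fun z => z.1⁻¹ * z.2) σ
        = 1 := fun π => (hl _).2
    rw [Finset.sum_congr rfl fun π _ => this π]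
    rw [Finset.sum_const, Finset.card_univ, Fintype.card_perm, Fintype.card_fin]
    simp [hN.ne']
  · have h1 : ∑ σ, chi ν k σ * (fixc σ : ℝ) =
        (n.factorial : ℝ)⁻¹ * ∑ i : Fin n, ∑ π : Perm (Fin n), QQ ν (π i) (im π (ini n k)) := by
      unfold chi
      simp_rw [mul_assoc]
      rw [← Finset.mul_sum]
      congr 1
      simp_rw [Finset.sum_mul]
      rw [Finset.sum_comm, Finset.sum_comm (s := (Finset.univ : Finset (Fin n)))]
      refine Finset.sum_congr rfl fun π _ => ?_
      rw [(hl5 _ _ Unit (ccp ν (res (im π (ini n k)))) (fun z => z.1⁻¹ * z.2) (fun _ => ())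
        (hc _)).2.2.2 (fun σ => (fixc σ : ℝ))]
      unfold QQ
      rw [Finset.sum_comm]
      refine Finset.sum_congr rfl fun z _ => ?_
      rw [fixc_eq z.1 z.2 π, Finset.mul_sum]
    have hQ0 : ∀ (p : Fin n) (D : Finset (Fin n)), 0 ≤ QQ ν p D := by
      intro p D
      unfold QQ
      refine Finset.sum_nonneg fun z _ => mul_nonneg ((hc D).1 z) ?_
      split_ifs <;> norm_num
    have hQ1 : ∀ (p : Fin n) (D : Finset (Fin n)), QQ ν p D ≤ 1 := by
      intro p D
      unfold QQ
      refine le_trans (Finset.sum_le_sum (g := ccp ν (res D)) fun z _ => ?_) (hc D).2.le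
      have := (hc D).1 z
      split_ifs
      · simp
      · simpa using this
    have h2 : ∀ i : Fin n, i ∉ ini n k → ∑ π : Perm (Fin n), QQ ν (π i) (im π (ini n k)) =
        ∑ π : Perm (Fin n), QQ ν (π ⟨k, hk⟩) (im π (ini n k)) := fun i hi =>
      (havg n k).1 hk (QQ ν) i (ini n k) hi ((havg n k).2.2 hk.le)
    have h3 : ∑ i : Fin n, ∑ π : Perm (Fin n), QQ ν (π i) (im π (ini n k)) ≤
        k * n.factorial + n * ∑ π : Perm (Fin n), QQ ν (π ⟨k, hk⟩) (im π (ini n k)) := by
      rw [← Finset.sum_add_sum_compl (ini n k)]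
      refine add_le_add ?_ ?_
      · calc _ ≤ ∑ i ∈ ini n k, ∑ π : Perm (Fin n), (1 : ℝ) :=
              Finset.sum_le_sum fun i _ => Finset.sum_le_sum fun π _ => hQ1 _ _
          _ = _ := by
              simp only [Finset.sum_const, Finset.card_univ, Fintype.card_perm, Fintype.card_fin,
                (havg n k).2.2 hk.le, nsmul_eq_mul]
              ring
      · rw [Finset.sum_congr rfl fun i hi => h2 i (by simpa using hi), Finset.sum_const,
          nsmul_eq_mul]
        refine mul_le_mul_of_nonneg_right ?_ (Finset.sum_nonneg fun π _ => hQ0 _ _)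
        have := Finset.card_le_univ (ini n k)ᶜ
        rw [Fintype.card_fin] at this
        exact_mod_cast this
    rw [h1]
    have h4 : ∑ π : Perm (Fin n), QQ ν (π ⟨k, hk⟩) (im π (ini n k)) =
        ∑ π : Perm (Fin n), ∑ f, ν f * kap ν k hk π f := by
      refine Finset.sum_congr rfl fun π _ => ?_
      rw [QQ_eq]
      rfl
    rw [h4] at h3
    calc _ ≤ (n.factorial : ℝ)⁻¹ * (k * n.factorial +
          n * ∑ π : Perm (Fin n), ∑ f, ν f * kap ν k hk π f) :=
          mul_le_mul_of_nonneg_left h3 (by positivity)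
      _ = _ := by field_simp

end Pool.Agent.Helper71.NX
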