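import Pool.Agent.Helper6.NX.GoalsD

/-! Project NX, packet MOMT: exponential moments from factorial moments. -/

set_option linter.unusedVariables false

namespace Pool.Agent.Helper71.NX

open Equiv Pool.Agent.Helper15.An Pool.Agent.Helper6.NX

theorem fixc_le {n : ℕ} (g : Perm (Fin n)) : fixc g ≤ n := by
  unfold fixc
  calc _ ≤ (Finset.univ : Finset (Fin n)).card := Finset.card_filter_le _ _
    _ = n := by simp

theorem pow_eq {n : ℕ} (g : Perm (Fin n)) (t : ℝ) :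
    (1 + t) ^ (fixc g) =
      ∑ j ∈ Finset.range (n + 1), t ^ j / (j.factorial : ℝ) * ((fixc g).descFactorial j : ℝ) := by
  have h1 : (1 + t) ^ (fixc g) =
      ∑ j ∈ Finset.range (fixc g + 1), t ^ j / (j.factorial : ℝ) *
        ((fixc g).descFactorial j : ℝ) := by
    rw [add_comm, add_pow]
    refine Finset.sum_congr rfl fun j hj => ?_
    rw [Nat.descFactorial_eq_factorial_mul_choose]
    have : (j.factorial : ℝ) ≠ 0 := by positivity
    push_cast
    field_simp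
    simp
  rw [h1]
  refine Finset.sum_subset ?_ ?_
  · intro j hj
    have := fixc_le g
    simp only [Finset.mem_range] at hj ⊢
    omega
  · intro j _ hj
    simp only [Finset.mem_range, not_lt] at hj
    rw [Nat.descFactorial_of_lt (by omega)]
    simp

theorem sum_eq {n : ℕ} (κ : Perm (Fin n) → ℝ) (t : ℝ) :
    ∑ g, κ g * (1 + t) ^ (fixc g) =
      ∑ j ∈ Finset.range (n + 1), t ^ j / (j.factorial : ℝ) * mom κ j := by
  simp_rw [pow_eq, Finset.mul_sum]
  rw [Finset.sum_comm]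
  refine Finset.sum_congr rfl fun j hj => ?_
  unfold mom
  rw [Finset.mul_sum]
  exact Finset.sum_congr rfl fun g _ => by ring

theorem tail_term {n j : ℕ} {f₀ t m : ℝ} (hn : 1 ≤ n) (h12 : 12 * (n : ℝ) ^ (19 / 20 : ℝ) ≤ f₀)
    (ht : 0 ≤ t) (ht2 : t ≤ 2 * (n : ℝ) ^ (1 / 4 : ℝ)) (hj : f₀ ≤ j) (hj1 : 1 ≤ j)
    (hm : m ≤ (n : ℝ) ^ ((7 / 10 : ℝ) * j)) :
    t ^ j / (j.factorial : ℝ) * m ≤ (1 / 2) ^ j := by
  have hn0 : (0 : ℝ) < n := by exact_mod_cast (by omega : 0 < n)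
  have hj0 : (0 : ℝ) < j := by exact_mod_cast (by omega : 0 < j)
  have h1 : (n : ℝ) ^ ((7 / 10 : ℝ) * j) = ((n : ℝ) ^ (7 / 10 : ℝ)) ^ j := by
    rw [Real.rpow_mul hn0.le, Real.rpow_natCast]
  have h2 : (j : ℝ) ^ j / (j.factorial : ℝ) ≤ Real.exp 1 ^ j := by
    have := Real.pow_div_factorial_le_exp (j : ℝ) hj0.le j
    calc _ ≤ _ := this
      _ = _ := by rw [← Real.exp_nat_mul]; ring_nf
  have h3 : Real.exp 1 * (t * (n : ℝ) ^ (7 / 10 : ℝ)) ≤ (1 / 2) * j := by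
    have he : Real.exp 1 ≤ 3 := by
      have := Real.exp_one_lt_d9; linarith
    have h4 : t * (n : ℝ) ^ (7 / 10 : ℝ) ≤ 2 * (n : ℝ) ^ (19 / 20 : ℝ) := by
      calc t * (n : ℝ) ^ (7 / 10 : ℝ) ≤ 2 * (n : ℝ) ^ (1 / 4 : ℝ) * (n : ℝ) ^ (7 / 10 : ℝ) :=
            mul_le_mul_of_nonneg_right ht2 (by positivity)
        _ = 2 * ((n : ℝ) ^ (1 / 4 : ℝ) * (n : ℝ) ^ (7 / 10 : ℝ)) := by ring
        _ = _ := by rw [← Real.rpow_add hn0]; norm_num
    have h5 : 0 ≤ t * (n : ℝ) ^ (7 / 10 : ℝ) := by positivity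
    have h6 : Real.exp 1 * (t * (n : ℝ) ^ (7 / 10 : ℝ)) ≤ 3 * (2 * (n : ℝ) ^ (19 / 20 : ℝ)) :=
      mul_le_mul he h4 h5 (by norm_num)
    linarith
  have hf : (0 : ℝ) < (j.factorial : ℝ) := by positivity
  calc t ^ j / (j.factorial : ℝ) * m ≤
      t ^ j / (j.factorial : ℝ) * ((n : ℝ) ^ (7 / 10 : ℝ)) ^ j := by
        rw [← h1]; exact mul_le_mul_of_nonneg_left hm (by positivity)
    _ = ((j : ℝ) ^ j / (j.factorial : ℝ)) * (t * (n : ℝ) ^ (7 / 10 : ℝ)) ^ j / (j : ℝ) ^ j := by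
        rw [mul_pow]; field_simp
    _ ≤ Real.exp 1 ^ j * (t * (n : ℝ) ^ (7 / 10 : ℝ)) ^ j / (j : ℝ) ^ j := by
        gcongr
    _ = (Real.exp 1 * (t * (n : ℝ) ^ (7 / 10 : ℝ))) ^ j / (j : ℝ) ^ j := by
        rw [mul_pow (Real.exp 1)]
    _ ≤ ((1 / 2) * j) ^ j / (j : ℝ) ^ j := by gcongr
    _ = (1 / 2) ^ j := by rw [mul_pow]; field_simp

theorem geom_tail (f n : ℕ) (hf : 1 ≤ f) :
    ∑ j ∈ (Finset.range (n + 1)).filter (fun j => f ≤ j), (1 / 2 : ℝ) ^ j ≤ 1 := by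
  have h1 : ∑ j ∈ (Finset.range (n + 1)).filter (fun j => f ≤ j), (1 / 2 : ℝ) ^ j ≤
      ∑ j ∈ (Finset.range n).image Nat.succ, (1 / 2 : ℝ) ^ j := by
    refine Finset.sum_le_sum_of_subset_of_nonneg ?_ (fun _ _ _ => by positivity)
    intro j hj
    simp only [Finset.mem_filter, Finset.mem_range] at hj
    rw [Finset.mem_image]
    exact ⟨j - 1, by rw [Finset.mem_range]; omega, by simp only [Nat.succ_eq_add_one]; omega⟩
  refine h1.trans ?_
  rw [Finset.sum_image (fun a _ b _ h => Nat.succ_injective h)]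
  have h2 : ∀ m : ℕ, ∑ j ∈ Finset.range m, (1 / 2 : ℝ) ^ (Nat.succ j) = 1 - (1 / 2) ^ m := by
    intro m
    induction m with
    | zero => simp
    | succ m ih => rw [Finset.sum_range_succ, ih, Nat.succ_eq_add_one, pow_succ]; ring
  rw [h2]
  have : (0 : ℝ) ≤ (1 / 2) ^ n := by positivity
  linarith

theorem thmMOMT : S_MOMT := by
  intro n f₀ κ t hn hκ h12 ht ht2 hlo hhi
  have hn0 : (1 : ℝ) ≤ n := by exact_mod_cast hn
  have hf : 1 ≤ f₀ := by
    have h1 : (1 : ℝ) ≤ (n : ℝ) ^ (19 / 20 : ℝ) := Real.one_le_rpow hn0 (by norm_num)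
    have h2 : (1 : ℝ) ≤ f₀ := by linarith
    exact_mod_cast h2
  rw [sum_eq, ← Finset.sum_filter_add_sum_filter_not (Finset.range (n + 1)) (fun j => f₀ ≤ j)]
  have hA : ∑ j ∈ (Finset.range (n + 1)).filter (fun j => f₀ ≤ j),
      t ^ j / (j.factorial : ℝ) * mom κ j ≤ 1 := by
    refine le_trans (Finset.sum_le_sum fun j hj => ?_) (geom_tail f₀ n hf)
    simp only [Finset.mem_filter, Finset.mem_range] at hj
    exact tail_term hn h12 ht ht2 (by exact_mod_cast hj.2) (by omega) (hhi j hj.2 (by omega))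
  have hB : ∑ j ∈ (Finset.range (n + 1)).filter (fun j => ¬ f₀ ≤ j),
      t ^ j / (j.factorial : ℝ) * mom κ j ≤ 2 * Real.exp t := by
    calc _ ≤ ∑ j ∈ (Finset.range (n + 1)).filter (fun j => ¬ f₀ ≤ j),
          t ^ j / (j.factorial : ℝ) * 2 := by
          refine Finset.sum_le_sum fun j hj => ?_
          simp only [Finset.mem_filter, Finset.mem_range, not_le] at hj
          exact mul_le_mul_of_nonneg_left (hlo j hj.2) (by positivity)
      _ ≤ ∑ j ∈ Finset.range (n + 1), t ^ j / (j.factorial : ℝ) * 2 :=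
          Finset.sum_le_sum_of_subset_of_nonneg (Finset.filter_subset _ _)
            (fun _ _ _ => by positivity)
      _ = 2 * ∑ j ∈ Finset.range (n + 1), t ^ j / (j.factorial : ℝ) := by
          rw [← Finset.sum_mul]; ring
      _ ≤ _ := by
          have := Real.sum_le_exp_of_nonneg ht (n + 1)
          linarith
  have hC : 1 ≤ Real.exp t := Real.one_le_exp ht
  linarith

end Pool.Agent.Helper71.NX
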